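import Mathlib
import Pool.Agent.H21.HPolarDef

namespace Pool.Agent.Results.MP_d7084b_al.Two

open Pool.Agent.H21.HPolar Matrix Polynomial ComplexOrder

variable {n : ℕ} {H : Matrix (Fin n) (Fin n) ℂ}

theorem adj_mul (hH : IsUnit H.det) (A B : Matrix (Fin n) (Fin n) ℂ) :
    adj H (A * B) = adj H B * adj H A := by
  simp only [adj, conjTranspose_mul, Matrix.mul_assoc, mul_nonsing_inv_cancel_left _ _ hH]

theorem adj_sub (hH : IsUnit H.det) (A : Matrix (Fin n) (Fin n) ℂ) (c : ℂ) :
    adj H (A - c • 1) = adj H A - star c • 1 := by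
  simp [adj, mul_sub, sub_mul, nonsing_inv_mul _ hH]

theorem adj_pow (hH : IsUnit H.det) (A : Matrix (Fin n) (Fin n) ℂ) (k : ℕ) :
    adj H (A ^ k) = adj H A ^ k := by
  induction k with
  | zero => simp [adj, nonsing_inv_mul _ hH]
  | succ k ih => rw [pow_succ, adj_mul hH, ih, pow_succ']

theorem adj_neg (A : Matrix (Fin n) (Fin n) ℂ) : adj H (-A) = -adj H A := by simp [adj]

theorem ip_adj (h : H.IsHermitian) (hH : IsUnit H.det) (M : Matrix (Fin n) (Fin n) ℂ) (x y) :
    ip H (M *ᵥ x) y = ip H x (adj H M *ᵥ y) := by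
  simp only [ip, star_mulVec, ← dotProduct_mulVec, mulVec_mulVec, conjTranspose_mul, h.eq, adj,
    ← Matrix.mul_assoc, mul_nonsing_inv _ hH, Matrix.one_mul]

theorem eig {U : Matrix (Fin n) (Fin n) ℂ} {c : ℂ} (h : c ∈ spectrum ℂ U) :
    ∃ v ≠ 0, U *ᵥ v = c • v := by
  rw [spectrum.mem_iff, isUnit_iff_isUnit_det, isUnit_iff_ne_zero, not_not,
    ← exists_mulVec_eq_zero_iff] at h
  obtain ⟨v, h0, h⟩ := h
  refine ⟨v, h0, ?_⟩
  rw [sub_mulVec, Algebra.algebraMap_eq_smul_one, smul_mulVec, one_mulVec, sub_eq_zero] at h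
  exact h.symm

theorem two (h : H.IsHermitian) (hH : IsUnit H.det) {X U : Matrix (Fin n) (Fin n) ℂ}
    (hX : ¬ Decomposable H X) (hU : adj H U * U = 1) (c1 : Commute U X) (c2 : Commute U (adj H X))
    {l m : ℂ} (hl : l ∈ spectrum ℂ U) (hm : m ∈ spectrum ℂ U) : 0 < (l * star m).re := by
  have hU' : U * adj H U = 1 := mul_eq_one_comm.1 hU
  have m0 : m ≠ 0 := by
    rintro rfl
    exact (spectrum.zero_notMem_iff ℂ).2 ⟨⟨U, adj H U, hU', hU⟩, rfl⟩ hm
  have m1 : star m ≠ 0 := star_ne_zero.2 m0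
  set T := (U - m • 1) * (U - (star m)⁻¹ • 1) with hT
  have ev : ∀ (c : ℂ) v k, U *ᵥ v = c • v → (T ^ k) *ᵥ v = ((c - m) * (c - (star m)⁻¹)) ^ k • v := by
    intro c v k hv
    induction k with
    | zero => simp
    | succ k ih =>
      rw [pow_succ', ← mulVec_mulVec, ih, mulVec_smul, hT, ← mulVec_mulVec]
      simp only [sub_mulVec, smul_mulVec, one_mulVec, hv, ← sub_smul, mulVec_smul, smul_smul]
      congr 1; ring
  have cT : ∀ Y, Commute U Y → Commute T Y := fun Y hY =>
    (hY.sub_left ((Commute.one_left Y).smul_left _)).mul_left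
      (hY.sub_left ((Commute.one_left Y).smul_left _))
  have aT : adj H T = (star m * m⁻¹) • (adj H U * adj H U) * T := by
    have e : adj H U * adj H U * (U * U) = 1 := by
      rw [mul_assoc, ← mul_assoc (adj H U) U, hU, one_mul, hU]
    have e' : adj H U * adj H U * U = adj H U := by rw [mul_assoc, hU, mul_one]
    rw [hT, adj_mul hH, adj_sub hH, adj_sub hH]
    simp only [mul_sub, sub_mul, smul_mul_assoc, mul_smul_comm, one_mul, mul_one, e, e', smul_smul,
      star_inv₀, star_star]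
    match_scalars <;> field_simp
    ring
  obtain ⟨k, hk, k0⟩ := ((LinearMap.eventually_isCompl_ker_pow_range_pow (toLin' T)).and
    (Filter.eventually_gt_atTop 0)).exists
  rw [← toLin'_pow] at hk
  have mem : ∀ v, v ∈ LinearMap.ker (toLin' (T ^ k)) ↔ (T ^ k) *ᵥ v = 0 := fun v => by
    rw [LinearMap.mem_ker, toLin'_apply]
  have inv : ∀ Y, Commute U Y → ∀ w ∈ LinearMap.ker (toLin' (T ^ k)),
      Y *ᵥ w ∈ LinearMap.ker (toLin' (T ^ k)) := fun Y hY w hw => by
    rw [mem] at hw ⊢
    rw [mulVec_mulVec, ((cT Y hY).pow_left k).eq, ← mulVec_mulVec, hw, mulVec_zero]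
  have top : LinearMap.ker (toLin' (T ^ k)) = ⊤ := by
    by_contra ht
    refine hX ⟨_, fun hb => ?_, ht, fun w hw hv => ?_, inv _ c1, inv _ c2⟩
    · obtain ⟨v, v0, hv⟩ := eig hm
      refine v0 ((Submodule.eq_bot_iff _).1 hb v ?_)
      rw [mem, ev m v k hv]; simp [k0.ne']
    · have all : ∀ v, ip H v w = 0 := fun v => by
        obtain ⟨a, ha, _, ⟨b, rfl⟩, rfl⟩ := Submodule.mem_sup.1
          (show v ∈ _ ⊔ _ by rw [hk.sup_eq_top]; trivial)
        have c3 : Commute U (adj H U) := hU'.trans hU.symm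
        have : ip H (toLin' (T ^ k) b) w = 0 := by
          rw [toLin'_apply, ip_adj h hH, adj_pow hH, aT,
            ((cT _ (c3.mul_right c3)).symm.smul_left _).mul_pow, ← mulVec_mulVec, (mem w).1 hw]
          simp [ip]
        have e := hv a ha
        simp only [ip, mulVec_add, star_add, add_dotProduct] at *
        rw [e, this, add_zero]
      have := all (H⁻¹ *ᵥ w)
      rwa [ip, mulVec_mulVec, mul_nonsing_inv _ hH, one_mulVec, dotProduct_star_self_eq_zero] at this
  obtain ⟨v, v0, hv⟩ := eig hl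
  have := (mem v).1 (by rw [top]; trivial)
  rw [ev l v k hv, smul_eq_zero, pow_eq_zero_iff k0.ne', mul_eq_zero, sub_eq_zero,
    sub_eq_zero] at this
  rcases this.resolve_right v0 with rfl | rfl
  · rw [Complex.star_def, Complex.mul_conj, Complex.ofReal_re]
    exact Complex.normSq_pos.2 m0
  · rw [inv_mul_cancel₀ m1]; simp

theorem sylv {U B d : Matrix (Fin n) (Fin n) ℂ} (h : U * d = d * B) (h0 : d ≠ 0) :
    ∃ c ∈ spectrum ℂ U, c ∈ spectrum ℂ B := by
  have key : ∀ p : ℂ[X], aeval U p * d = d * aeval B p := fun p => by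
    induction p using Polynomial.induction_on' with
    | add p q hp hq => simp [add_mul, mul_add, hp, hq]
    | monomial k a =>
      simp only [aeval_monomial, Algebra.algebraMap_eq_smul_one, smul_mul_assoc, one_mul,
        mul_smul_comm]
      rw [(show SemiconjBy d B U from h.symm).pow_right k]
  have h1 := key B.charpoly
  rw [aeval_self_charpoly, mul_zero] at h1
  haveI : Nontrivial (Matrix (Fin n) (Fin n) ℂ) := ⟨d, 0, h0⟩
  have h2 : (0 : ℂ) ∈ spectrum ℂ (aeval U B.charpoly) :=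
    (spectrum.zero_mem_iff ℂ).2 fun hu => h0 (hu.mul_right_eq_zero.1 h1)
  rw [spectrum.map_polynomial_aeval_of_nonempty _ _ (spectrum.nonempty_of_isAlgClosed_of_finiteDimensional ℂ U)] at h2
  obtain ⟨c, hc, e⟩ := h2
  exact ⟨c, hc, mem_spectrum_iff_isRoot_charpoly.2 e⟩

theorem result (n : ℕ) (H X : Matrix (Fin n) (Fin n) ℂ) (h : H.IsHermitian) (hH : IsUnit H.det)
    (h0 : X ≠ 0) (hX : ¬ Decomposable H X) (hne : (factors H X).Nonempty) :
    (factors H X).encard = 2 := by
  have facts : ∀ {U A}, adj H U * U = 1 → adj H A = A → X = U * A → U * A = A * U →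
      Commute U X ∧ Commute U (adj H X) ∧ U * (U * adj H X) = X ∧ A = U * adj H X := by
    intro U A h1 h2 h3 h4
    have h5 : U * adj H U = 1 := mul_eq_one_comm.1 h1
    have h6 : U * adj H X = A := by
      rw [h3, h4, adj_mul hH, h2, ← mul_assoc, h5, one_mul]
    refine ⟨?_, ?_, by rw [h6, h3], h6.symm⟩
    · rw [Commute, SemiconjBy, h3, mul_assoc, h4]
    · rw [Commute, SemiconjBy, h6, h3, adj_mul hH, h2, mul_assoc, h1, mul_one]
  obtain ⟨A, U, a1, a2, a3, a4⟩ := hne
  obtain ⟨c1, c2, c3, c4⟩ := facts a1 a2 a3 a4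
  have : factors H X = {A, -A} := by
    refine Set.Subset.antisymm ?_ ?_
    · rintro B ⟨V, b1, b2, b3, b4⟩
      obtain ⟨d1, d2, d3, d4⟩ := facts b1 b2 b3 b4
      by_contra hc
      simp only [Set.mem_insert_iff, Set.mem_singleton_iff, not_or] at hc
      have e : ∀ Y, Y * adj H X * V = Y * (V * adj H X) := fun Y => by rw [mul_assoc, d2.eq]
      obtain ⟨l, l1, l2⟩ := sylv (U := U) (B := -V) (d := A - B)
        (by rw [c4, d4, mul_sub, mul_neg, sub_mul, e, e, c3, d3]; abel) (sub_ne_zero.2 (Ne.symm hc.1))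
      obtain ⟨m, m1, m2⟩ := sylv (U := U) (B := V) (d := A + B)
        (by rw [c4, d4, mul_add, add_mul, e, e, c3, d3]; abel)
        fun h => hc.2 (eq_neg_of_add_eq_zero_right h)
      rw [← spectrum.neg_eq, Set.mem_neg] at l2
      have t1 := two h hH hX a1 c1 c2 l1 m1
      have t2 := two h hH hX b1 d1 d2 l2 m2
      rw [neg_mul, Complex.neg_re] at t2
      linarith
    · rintro B (rfl | rfl)
      · exact ⟨U, a1, a2, a3, a4⟩
      · exact ⟨-U, by simpa [adj_neg] using a1, by rw [adj_neg, a2], by simpa using a3,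
          by simpa using a4⟩
  rw [this, Set.encard_pair]
  intro e
  have : A = 0 := by
    ext i j
    have := congrFun (congrFun e i) j
    rw [neg_apply] at this
    exact self_eq_neg.1 this
  exact h0 (by rw [a3, this, mul_zero])

end Pool.Agent.Results.MP_d7084b_al.Two
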